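import Pool.Agent.R393.UA.Laur
import Pool.Agent.R393.UO.Lim

/-!
Specialisation of curves with the source `G_m`; the transfer from the limit to the terms of a
sequence.
-/

set_option autoImplicit false

namespace Pool.Agent.R393.UA

open MvPolynomial
open Pool.Agent.R393.UO (los)
open scoped LaurentPolynomial

theorem nonconst_iff {A : Type} [CommRing A] (f : A[T;T⁻¹]) :
    (∀ b : A, f ≠ LaurentPolynomial.C b) ↔ ∃ m, m ≠ 0 ∧ f.coeff m ≠ 0 := by
  constructor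
  · intro h
    by_contra hcon
    push Not at hcon
    apply h (f.coeff 0)
    apply LaurentPolynomial.ext
    intro m
    rw [LaurentPolynomial.C_apply]
    split_ifs with h1
    · rw [h1]
    · exact hcon m h1
  · rintro ⟨m, hm, h⟩ b rfl
    rw [LaurentPolynomial.C_apply, if_neg hm] at h
    exact h rfl

theorem ne_zero_iff {A : Type} [CommRing A] (f : A[T;T⁻¹]) : f ≠ 0 ↔ ∃ m, f.coeff m ≠ 0 := by
  constructor
  · intro h
    by_contra hcon
    push Not at hcon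
    exact h (LaurentPolynomial.ext hcon)
  · rintro ⟨m, h⟩ rfl
    exact h rfl

theorem spec_adj (κ : Type) [Field κ] {M : Type} [Field M] [Algebra κ M] (S : Finset M) (w : M)
    (hw : w ≠ 0) (hwS : w ∈ Algebra.adjoin κ (S : Set M)) :
    ∃ (R : Subalgebra κ M) (K' : Type) (_ : Field K') (_ : Algebra κ K') (_ : Module.Finite κ K')
      (ψ : R →ₐ[κ] K'), (∀ s ∈ S, s ∈ R) ∧ ∃ hwR : w ∈ R, ψ ⟨w, hwR⟩ ≠ 0 := by
  classical
  let R : Subalgebra κ M := Algebra.adjoin κ ((S ∪ {w⁻¹} : Finset M) : Set M)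
  have hft : Algebra.FiniteType κ R := by
    rw [← Subalgebra.fg_iff_finiteType]
    exact Subalgebra.fg_adjoin_finset _
  have hSR : (S : Set M) ⊆ R := by
    intro s hs
    apply Algebra.subset_adjoin
    rw [Finset.coe_union]
    exact Or.inl hs
  have hwR : w ∈ R := Algebra.adjoin_le hSR hwS
  have hiR : w⁻¹ ∈ R := by
    apply Algebra.subset_adjoin
    rw [Finset.coe_union]
    exact Or.inr (Finset.mem_coe.2 (Finset.mem_singleton_self _))
  obtain ⟨m, hm⟩ := Ideal.exists_maximal R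
  let _ : Field (R ⧸ m) := Ideal.Quotient.field m
  have hft2 : Algebra.FiniteType κ (R ⧸ m) :=
    Algebra.FiniteType.of_surjective (Ideal.Quotient.mkₐ κ m) (Ideal.Quotient.mkₐ_surjective κ m)
  have hfin : Module.Finite κ (R ⧸ m) := finite_of_finite_type_of_isJacobsonRing κ (R ⧸ m)
  refine ⟨R, R ⧸ m, inferInstance, inferInstance, hfin, Ideal.Quotient.mkₐ κ m, hSR, hwR, ?_⟩
  intro h0
  have h1 : (⟨w, hwR⟩ : R) * ⟨w⁻¹, hiR⟩ = 1 := Subtype.ext (mul_inv_cancel₀ hw)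
  have h2 := congrArg (Ideal.Quotient.mkₐ κ m) h1
  rw [map_mul, h0, zero_mul, map_one] at h2
  exact zero_ne_one h2

theorem spec_laur {κ M : Type} [Field κ] [Field M] [Algebra κ M] {n : ℕ} {ι : Type}
    (F : ι → MvPolynomial (Fin n) κ) (G : MvPolynomial (Fin n) κ) (y : Fin n → M[T;T⁻¹])
    (hF : ∀ i, aeval y (F i) = 0) (hG : aeval y G ≠ 0)
    (hc : ∃ j, ∀ b : M, y j ≠ LaurentPolynomial.C b) :
    ∃ (K' : Type) (_ : Field K') (_ : Algebra κ K') (_ : Module.Finite κ K')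
      (z : Fin n → K'[T;T⁻¹]), (∀ i, aeval z (F i) = 0) ∧ aeval z G ≠ 0 ∧
      ∃ j, ∀ b : K', z j ≠ LaurentPolynomial.C b := by
  classical
  obtain ⟨j0, hj0⟩ := hc
  obtain ⟨m1, hm1, hc1⟩ := (nonconst_iff _).1 hj0
  obtain ⟨m2, hc2⟩ := (ne_zero_iff _).1 hG
  let S : Finset M := (Finset.univ.biUnion fun j => (y j).coeff.support.image fun m => (y j).coeff m)
  have hS : ∀ (j : Fin n) (m : ℤ), (y j).coeff m ∈ Algebra.adjoin κ (S : Set M) := by
    intro j m
    by_cases h : (y j).coeff m = 0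
    · rw [h]
      exact Subalgebra.zero_mem _
    · apply Algebra.subset_adjoin
      rw [Finset.mem_coe, Finset.mem_biUnion]
      exact ⟨j, Finset.mem_univ j, Finset.mem_image.2 ⟨m, Finsupp.mem_support_iff.2 h, rfl⟩⟩
  -- a lift to the subalgebra
  choose yl hyl using fun j => exists_lift
    ((Algebra.adjoin κ (S : Set M)).val : Algebra.adjoin κ (S : Set M) →+* M) (y j)
    (fun m => ⟨⟨_, hS j m⟩, rfl⟩)
  have hal : ∀ P : MvPolynomial (Fin n) κ,
      mapL ((Algebra.adjoin κ (S : Set M)).val : Algebra.adjoin κ (S : Set M) →+* M)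
        (aeval yl P) = aeval y P := by
    intro P
    rw [map_aevalL]
    congr 1
    have h1 : (fun j => mapL ((Algebra.adjoin κ (S : Set M)).val :
      Algebra.adjoin κ (S : Set M) →+* M) (yl j)) = y := funext hyl
    rw [h1]
  set w : M := (y j0).coeff m1 * (aeval y G).coeff m2 with hw
  have hwS : w ∈ Algebra.adjoin κ (S : Set M) := by
    refine Subalgebra.mul_mem _ (hS _ _) ?_
    rw [← hal G, coeff_mapL]
    exact Subtype.prop _
  obtain ⟨R, K', i1, i2, i3, ψ, h1, hwR, h2⟩ := spec_adj κ S w (mul_ne_zero hc1 hc2) hwS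
  have hSR : Algebra.adjoin κ (S : Set M) ≤ R := Algebra.adjoin_le h1
  choose zl hzl using fun j => exists_lift (R.val : R →+* M) (y j)
    (fun m => ⟨⟨_, hSR (hS j m)⟩, rfl⟩)
  have hzal : ∀ P : MvPolynomial (Fin n) κ, mapL (R.val : R →+* M) (aeval zl P) = aeval y P := by
    intro P
    rw [map_aevalL]
    have h1 : (fun j => mapL (R.val : R →+* M) (zl j)) = y := funext hzl
    rw [h1]
  have hzψ : ∀ P : MvPolynomial (Fin n) κ, mapL (ψ : R →+* K') (aeval zl P) =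
      aeval (fun j => mapL (ψ : R →+* K') (zl j)) P := fun P => map_aevalL ψ zl P
  have hRinj : Function.Injective (R.val : R →+* M) := Subtype.val_injective
  have hw2 : (⟨w, hwR⟩ : R) = (zl j0).coeff m1 * (aeval zl G).coeff m2 := by
    apply hRinj
    rw [map_mul, ← coeff_mapL, ← coeff_mapL, hzl, hzal]
    rfl
  rw [hw2, map_mul] at h2
  refine ⟨K', i1, i2, i3, fun j => mapL (ψ : R →+* K') (zl j), fun i => ?_, ?_, j0, ?_⟩
  · rw [← hzψ]
    have h3 : aeval zl (F i) = 0 := by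
      apply mapL_inj hRinj
      rw [hzal, hF, map_zero]
    rw [h3, map_zero]
  · rw [← hzψ]
    refine (ne_zero_iff _).2 ⟨m2, ?_⟩
    rw [coeff_mapL]
    exact right_ne_zero_of_mul h2
  · refine (nonconst_iff _).2 ⟨m1, hm1, ?_⟩
    rw [coeff_mapL]
    exact left_ne_zero_of_mul h2

theorem spec_closedL {κ M : Type} [Field κ] [IsAlgClosed κ] [Field M] [Algebra κ M] {n : ℕ}
    {ι : Type} (F : ι → MvPolynomial (Fin n) κ) (G : MvPolynomial (Fin n) κ)
    (y : Fin n → M[T;T⁻¹]) (hF : ∀ i, aeval y (F i) = 0) (hG : aeval y G ≠ 0)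
    (hc : ∃ j, ∀ b : M, y j ≠ LaurentPolynomial.C b) :
    ∃ z : Fin n → κ[T;T⁻¹], (∀ i, aeval z (F i) = 0) ∧ aeval z G ≠ 0 ∧
      ∃ j, ∀ b : κ, z j ≠ LaurentPolynomial.C b := by
  obtain ⟨K', i1, i2, i3, z, h1, h2, j, h3⟩ := spec_laur F G y hF hG hc
  have hsurj : Function.Bijective (algebraMap κ K') :=
    IsAlgClosed.algebraMap_bijective_of_isIntegral
  let e : κ ≃ₐ[κ] K' := AlgEquiv.ofBijective (Algebra.ofId κ K') hsurj
  have hinj : Function.Injective ((e.symm : K' →ₐ[κ] κ) : K' →+* κ) := e.symm.injective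
  refine ⟨fun j => mapL ((e.symm : K' →ₐ[κ] κ) : K' →+* κ) (z j), fun i => ?_, ?_, j, ?_⟩
  · rw [← map_aevalL, h1, map_zero]
  · rw [← map_aevalL]
    intro h4
    apply h2
    apply mapL_inj hinj
    rw [h4, map_zero]
  · obtain ⟨m, hm, h4⟩ := (nonconst_iff _).1 h3
    refine (nonconst_iff _).2 ⟨m, hm, ?_⟩
    rw [coeff_mapL]
    exact (map_ne_zero_iff _ hinj).2 h4

theorem transferL {κ : Type} [Field κ] [IsAlgClosed κ] {Θ : (ℕ → ℂ) →+* ℂ}
    (θ : (ℕ → ℂ) →+* κ) (hθ : Function.Surjective θ) (jj : κ →+* ℂ) (hj : ∀ a, jj (θ a) = Θ a)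
    {n : ℕ} {ι : Type} [Fintype ι] (Fl : ι → MvPolynomial (Fin n) (ℕ → ℂ))
    (Gl : MvPolynomial (Fin n) (ℕ → ℂ)) {M : Type} [Field M] [Algebra ℂ M]
    (y : Fin n → M[T;T⁻¹]) (hF : ∀ i, aeval y (map Θ (Fl i)) = 0)
    (hG : aeval y (map Θ Gl) ≠ 0) (hc : ∃ j, ∀ b : M, y j ≠ LaurentPolynomial.C b) :
    ∃ (t : ℕ) (z : Fin n → ℂ[T;T⁻¹]),
      (∀ i, aeval z (map (Pi.evalRingHom (fun _ : ℕ => ℂ) t) (Fl i)) = 0) ∧
      aeval z (map (Pi.evalRingHom (fun _ : ℕ => ℂ) t) Gl) ≠ 0 ∧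
      ∃ j, ∀ b : ℂ, z j ≠ LaurentPolynomial.C b := by
  classical
  let _ : Algebra κ M := ((algebraMap ℂ M).comp jj).toAlgebra
  have hal : algebraMap κ (M[T;T⁻¹]) = (algebraMap ℂ (M[T;T⁻¹])).comp jj := by
    ext c : 1
    rw [RingHom.comp_apply, LaurentPolynomial.algebraMap_apply, LaurentPolynomial.algebraMap_apply]
    rfl
  have hjθ : jj.comp θ = Θ := RingHom.ext hj
  have hae : ∀ F : MvPolynomial (Fin n) (ℕ → ℂ), aeval y (map θ F) = aeval y (map Θ F) := by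
    intro F
    rw [aeval_def, aeval_def, eval₂_map, eval₂_map, hal, RingHom.comp_assoc, hjθ]
  obtain ⟨z', h4, h5, j0, h6⟩ := spec_closedL (κ := κ) (fun i => map θ (Fl i)) (map θ Gl) y
    (fun i => by rw [hae]; exact hF i) (by rw [hae]; exact hG) hc
  choose zl hzl using fun j => exists_lift θ (z' j) (fun m => hθ _)
  have hzl' : (fun j => mapL θ (zl j)) = z' := funext hzl
  have hPθ : ∀ i, mapL θ (aeval zl (Fl i)) = 0 := by
    intro i
    rw [map_aevalL', hzl', h4]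
  obtain ⟨m1, hm1, h7⟩ := (nonconst_iff _).1 h6
  obtain ⟨m2, h8⟩ := (ne_zero_iff _).1 h5
  have hu : Θ ((zl j0).coeff m1 * (aeval zl Gl).coeff m2) ≠ 0 := by
    rw [← hj, map_mul, map_mul]
    refine mul_ne_zero ((map_ne_zero jj).2 ?_) ((map_ne_zero jj).2 ?_)
    · rw [← coeff_mapL, hzl]
      exact h7
    · rw [← coeff_mapL, map_aevalL', hzl']
      exact h8
  obtain ⟨t, ht1, ht2⟩ := los (Θ := Θ)
    (J := Σ i : ι, ((aeval zl (Fl i) : (ℕ → ℂ)[T;T⁻¹]).coeff.support))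
    (fun x => (aeval zl (Fl x.1)).coeff x.2) (by
      rintro ⟨i, m, hm⟩
      have h9 := congrArg (fun Q : κ[T;T⁻¹] => Q.coeff m) (hPθ i)
      simp only [coeff_mapL] at h9
      rw [← hj, h9]
      exact map_zero jj) _ hu
  let ev : (ℕ → ℂ) →+* ℂ := Pi.evalRingHom (fun _ : ℕ => ℂ) t
  refine ⟨t, fun j => mapL ev (zl j), fun i => ?_, ?_, j0, ?_⟩
  · rw [← map_aevalL']
    apply LaurentPolynomial.ext
    intro m
    rw [coeff_mapL]
    by_cases hm : m ∈ (aeval zl (Fl i) : (ℕ → ℂ)[T;T⁻¹]).coeff.support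
    · exact ht1 ⟨i, m, hm⟩
    · rw [Finsupp.notMem_support_iff.1 hm, map_zero]
      rfl
  · rw [← map_aevalL']
    refine (ne_zero_iff _).2 ⟨m2, ?_⟩
    rw [coeff_mapL]
    exact right_ne_zero_of_mul ht2
  · refine (nonconst_iff _).2 ⟨m1, hm1, ?_⟩
    rw [coeff_mapL]
    exact left_ne_zero_of_mul ht2

end Pool.Agent.R393.UA
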