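import Mathlib

/-!
Laurent polynomials.
-/

set_option autoImplicit false

namespace Pool.Agent.R393.UA

open LaurentPolynomial

section basic

variable {A B : Type} [CommRing A] [CommRing B]

/-- coefficientwise homomorphism -/
noncomputable def mapL (φ : A →+* B) : A[T;T⁻¹] →+* B[T;T⁻¹] :=
  AddMonoidAlgebra.mapRingHom ℤ φ

theorem coeff_mapL (φ : A →+* B) (f : A[T;T⁻¹]) (m : ℤ) : (mapL φ f).coeff m = φ (f.coeff m) := by
  unfold mapL
  rw [AddMonoidAlgebra.coeff_mapRingHom]

theorem mapL_C (φ : A →+* B) (a : A) : mapL φ (C a) = C (φ a) := by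
  apply LaurentPolynomial.ext
  intro m
  rw [coeff_mapL, C_apply, C_apply]
  split_ifs
  · rfl
  · exact map_zero φ

theorem mapL_inj {φ : A →+* B} (h : Function.Injective φ) : Function.Injective (mapL φ) := by
  intro f g hfg
  apply LaurentPolynomial.ext
  intro m
  apply h
  rw [← coeff_mapL, ← coeff_mapL, hfg]

theorem map_aevalL {k : Type} [CommRing k] [Algebra k A] [Algebra k B] {n : ℕ} (φ : A →ₐ[k] B)
    (x : Fin n → A[T;T⁻¹]) (F : MvPolynomial (Fin n) k) :
    mapL (φ : A →+* B) (MvPolynomial.aeval x F) =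
      MvPolynomial.aeval (fun j => mapL (φ : A →+* B) (x j)) F := by
  rw [MvPolynomial.aeval_def, MvPolynomial.aeval_def, MvPolynomial.hom_eval₂]
  congr 1
  ext c : 1
  rw [RingHom.comp_apply, LaurentPolynomial.algebraMap_apply, LaurentPolynomial.algebraMap_apply,
    mapL_C]
  congr 1
  exact φ.commutes c

theorem map_aevalL' (φ : A →+* B) {n : ℕ} (x : Fin n → A[T;T⁻¹]) (F : MvPolynomial (Fin n) A) :
    mapL φ (MvPolynomial.aeval x F) =
      MvPolynomial.aeval (fun j => mapL φ (x j)) (MvPolynomial.map φ F) := by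
  rw [MvPolynomial.aeval_def, MvPolynomial.aeval_def, MvPolynomial.hom_eval₂,
    MvPolynomial.eval₂_map]
  congr 1
  ext c : 1
  rw [RingHom.comp_apply, RingHom.comp_apply, LaurentPolynomial.algebraMap_apply,
    LaurentPolynomial.algebraMap_apply, mapL_C]
  rfl

/-- values -/
noncomputable def evL (t : Aˣ) : A[T;T⁻¹] →+* A := LaurentPolynomial.eval₂ (RingHom.id A) t

theorem evL_C (t : Aˣ) (a : A) : evL t (C a) = a := by
  unfold evL
  rw [LaurentPolynomial.eval₂_C]
  rfl

theorem evL_aeval {k : Type} [CommRing k] [Algebra k A] {n : ℕ} (t : Aˣ)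
    (x : Fin n → A[T;T⁻¹]) (F : MvPolynomial (Fin n) k) :
    evL t (MvPolynomial.aeval x F) = MvPolynomial.aeval (fun j => evL t (x j)) F := by
  rw [MvPolynomial.aeval_def, MvPolynomial.aeval_def, MvPolynomial.hom_eval₂]
  congr 1
  ext c : 1
  rw [RingHom.comp_apply, LaurentPolynomial.algebraMap_apply, evL_C]

/-- lifting along a map which is surjective on the coefficients -/
theorem exists_lift (φ : A →+* B) (f : B[T;T⁻¹]) (hf : ∀ m, ∃ a, φ a = f.coeff m) :
    ∃ g : A[T;T⁻¹], mapL φ g = f := by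
  classical
  choose a ha using hf
  refine ⟨∑ m ∈ f.coeff.support, C (a m) * T m, ?_⟩
  apply LaurentPolynomial.ext
  intro j
  rw [coeff_mapL]
  have h1 : (∑ m ∈ f.coeff.support, C (a m) * T m : A[T;T⁻¹]).coeff j =
      ∑ m ∈ f.coeff.support, if m = j then a m else 0 := by
    rw [AddMonoidAlgebra.coeff_sum, Finsupp.finsetSum_apply]
    refine Finset.sum_congr rfl fun m _ => ?_
    have h2 := LaurentPolynomial.single_eq_C_mul_T (a m) m
    rw [← h2, AddMonoidAlgebra.coeff_single, Finsupp.single_apply]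
  rw [h1, Finset.sum_ite_eq']
  split_ifs with h2
  · exact ha j
  · rw [map_zero]
    exact (Finsupp.notMem_support_iff.1 h2).symm

end basic

section field

variable {L : Type} [Field L]

/-- multiplication by a power of the variable gives a polynomial -/
theorem exists_poly (f : L[T;T⁻¹]) : ∃ (N : ℕ) (q : Polynomial L), (∀ t : Lˣ,
    evL t f * (t : L) ^ N = q.eval (t : L)) ∧ (f ≠ 0 → q ≠ 0) := by
  obtain ⟨N, q, hq⟩ := LaurentPolynomial.exists_T_pow f
  refine ⟨N, q, fun t => ?_, fun h0 h1 => h0 ?_⟩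
  · have h1 : evL t (Polynomial.toLaurent q) = q.eval (t : L) := by
      unfold evL
      rw [LaurentPolynomial.eval₂_toLaurent]
      rfl
    rw [← h1, hq, map_mul]
    congr 1
    unfold evL
    rw [LaurentPolynomial.eval₂_T_n]
  · rw [h1, map_zero] at hq
    exact (mul_eq_zero.1 hq.symm).resolve_right (LaurentPolynomial.isUnit_T _).ne_zero

/-- finitely many zeros -/
theorem roots_finite {f : L[T;T⁻¹]} (h : f ≠ 0) : {t : Lˣ | evL t f = 0}.Finite := by
  classical
  obtain ⟨N, q, h1, h2⟩ := exists_poly f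
  have h3 := q.roots.toFinset.finite_toSet
  refine (h3.preimage (f := fun t : Lˣ => (t : L)) (Units.val_injective.injOn)).subset ?_
  intro t ht
  have h4 : evL t f = 0 := ht
  have h5 := h1 t
  rw [h4, zero_mul] at h5
  simp only [Set.mem_preimage, Finset.mem_coe, Multiset.mem_toFinset]
  exact (Polynomial.mem_roots (h2 h)).2 h5.symm

end field

end Pool.Agent.R393.UA
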